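import Pool.Agent.R226.RC.Fin

set_option autoImplicit false

/-!
Q1 of MP_d608f2_al has a negative answer: there are a homomorphism of rings `R → A` such that `A` is
a projective left `R`-module, and an acyclic complex of `A/R`-cotorsion left `A`-modules none of
whose modules of cocycles is `A/R`-cotorsion.

Let `L` be a set whose cardinality is a strong limit of countable cofinality, and let `S` be the
semilattice algebra over the field `k` with two elements of the finite subsets of `L` under union,
that is the `k`-algebra of the idempotents `e_x`, `x ∈ L`. Let `A` be the skew group ring of the group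
of the permutations of `L` over `S`, `R = k × S`, and `R → S → A` the map
`(c, s) ↦ c e_o + s (1 - e_o)`, for a fixed `o ∈ L`. If the `A`-module `X` is projective over `R`,
then `(1 - e_x) X` is projective over `S`, for all `x`. The main step is: for all such `X` and all free
`S`-modules `P`, `Ext¹_S(X, P) = 0`. The augmentation module `k` of `S` is not projective, although
`(1 - e_x) k = 0` for all `x`; hence a free resolution of `k`, made periodic and coinduced to `A`,
is a counterexample.
-/

namespace Pool.Agent.Results.MP_d608f2_al.PeriodicityFails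

open CategoryTheory Abelian

/-- Flat left modules over an arbitrary ring, by the equational criterion: every linear relation
`∑ rᵢ xᵢ = 0` in `F` is a consequence of linear relations in `S`. -/
def IsFlat (S : Type) [Ring S] (F : Type) [AddCommGroup F] [Module S F] : Prop :=
  ∀ (n : ℕ) (r : Fin n → S) (x : Fin n → F), ∑ i, r i • x i = 0 →
    ∃ (k : ℕ) (a : Fin n → Fin k → S) (y : Fin k → F),
      (∀ i, x i = ∑ j, a i j • y j) ∧ ∀ j, ∑ i, r i * a i j = 0

/-- `A/R`-cotorsion left `A`-modules: `Ext¹_A(F, C) = 0` for every left `A`-module `F` which is flat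
over `A` and whose underlying left `R`-module is projective. -/
def IsRelCotorsion {R A : Type} [Ring R] [Ring A] (f : R →+* A) (C : ModuleCat.{0} A) : Prop :=
  ∀ F : ModuleCat.{0} A, IsFlat A F →
    Module.Projective R ((ModuleCat.restrictScalars f).obj F) → ∀ e : Ext F C 1, e = 0

/-- The module of cocycles `Zⁿ = ker (dⁿ : Cⁿ → Cⁿ⁺¹)`. -/
abbrev cocycles {A : Type} [Ring A] (C : CochainComplex (ModuleCat.{0} A) ℤ) (n : ℤ) :
    ModuleCat.{0} A := ModuleCat.of A (LinearMap.ker (C.d n (n + 1)).hom)

open Pool.Agent.R226.RC in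
theorem result :
    ∃ (R A : Type) (_ : CommRing R) (_ : Ring A) (f : R →+* A)
      (C : CochainComplex (ModuleCat.{0} A) ℤ),
      Module.Projective R ((ModuleCat.restrictScalars f).obj (ModuleCat.of A A)) ∧
      C.Acyclic ∧ (∀ n, IsRelCotorsion f (C.X n)) ∧ ∀ n, ¬ IsRelCotorsion f (cocycles C n) := by
  let dd : ModuleCat.of Pool.Agent.R226.RC.A (CoInd CC) ⟶ ModuleCat.of Pool.Agent.R226.RC.A (CoInd CC) :=
    ModuleCat.ofHom dA
  have hdd : dd ≫ dd = 0 := by
    apply ModuleCat.hom_ext
    refine LinearMap.ext fun x => ?_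
    exact (dA_exact _).2 ⟨x, rfl⟩
  let C : CochainComplex (ModuleCat.{0} Pool.Agent.R226.RC.A) ℤ :=
    CochainComplex.of (fun _ => ModuleCat.of Pool.Agent.R226.RC.A (CoInd CC)) (fun _ => dd)
      (fun _ => hdd)
  have hd : ∀ n : ℤ, C.d n (n + 1) = dd := fun n =>
    CochainComplex.of_d (fun _ : ℤ => ModuleCat.of Pool.Agent.R226.RC.A (CoInd CC)) (fun _ => dd) n
  refine ⟨Pool.Agent.R226.RC.R, Pool.Agent.R226.RC.A, inferInstance, inferInstance, ff, C, A_proj,
    ?_, ?_, ?_⟩
  · intro m
    obtain ⟨n, rfl⟩ : ∃ n : ℤ, m = n + 1 := ⟨m - 1, by ring⟩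
    refine (HomologicalComplex.exactAt_iff' C n (n + 1) (n + 1 + 1) (by simp) (by simp)).2 ?_
    refine (ShortComplex.ShortExact.moduleCat_exact_iff_function_exact _).2 ?_
    change Function.Exact (C.d n (n + 1)).hom (C.d (n + 1) (n + 1 + 1)).hom
    rw [hd, hd]
    exact dA_exact
  · intro n F _ hF e
    exact relcot F hF e
  · intro n h
    have hc : cocycles C n = ModuleCat.of Pool.Agent.R226.RC.A (LinearMap.ker dA) :=
      congrArg (fun t : ModuleCat.of Pool.Agent.R226.RC.A (CoInd CC) ⟶
        ModuleCat.of Pool.Agent.R226.RC.A (CoInd CC) =>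
          ModuleCat.of Pool.Agent.R226.RC.A (LinearMap.ker t.hom)) (hd n)
    rw [hc] at h
    exact not_relcot (h (ModuleCat.of Pool.Agent.R226.RC.A FF) FF_flat FF_proj)

end Pool.Agent.Results.MP_d608f2_al.PeriodicityFails
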